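import Pool.Agent.Lib.MP_235f17_gt.K.Main

/-! Katok's entropy conjecture for Kaehler metrics on compact ball quotients whose class is a
multiple of the class of the Bergman metric. -/

set_option autoImplicit false

open MeasureTheory Set Metric Pool.Agent.Lib.MP_235f17_gt.K
open scoped ContDiff

theorem Pool.Agent.Retired.MP_235f17_gt.KaehlerBall.result
    {E : Type} [NormedAddCommGroup E] [InnerProductSpace ℝ E] [FiniteDimensional ℝ E]
    [MeasurableSpace E] [BorelSpace E] (J : E →L[ℝ] E) (hJ : IsCx J)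
    {Γ : Type} [Group Γ] (a : Γ → E → E) (ha : IsLattice J a)
    (G : E → E →L[ℝ] E) (hG : IsMetric G) (hinv : ∀ γ, Preserves G (a γ))
    (hher : ∀ x ∈ ball (0 : E) 1, ∀ u v, gm G x (J u) (J v) = gm G x u v)
    (c : ℝ) (θ : E → E →L[ℝ] ℝ) (hθ : ContDiffOn ℝ ∞ θ (ball 0 1))
    (hθi : ∀ γ, ∀ x ∈ ball (0 : E) 1, ∀ v, θ (a γ x) (fderiv ℝ (a γ) x v) = θ x v)
    (hd : ∀ x ∈ ball (0 : E) 1, ∀ u v,
      gm G x (J u) v - c * gm (berg J) x (J u) v = fderiv ℝ θ x u v - fderiv ℝ θ x v u)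
    (hK : ∀ x ∈ ball (0 : E) 1, ∀ u v, gm G x (curv G x u v v) u ≤ 0)
    (F : Set E) (hF : MeasurableSet F) (hFB : F ⊆ ball 0 1)
    (hF1 : ∀ x ∈ ball (0 : E) 1, ∃! γ, a γ x ∈ F)
    (Φ : ℝ → SB G → SB G) (hΦ : IsGeodFlow G Φ)
    (T : SM a G → SM a G) (hT : ∀ p, T (prj a G p) = prj a G (Φ 1 p))
    (he : hTop T = hKS (liouQ a G F) T) :
    ∀ x ∈ ball (0 : E) 1, G x = c • berg J x :=
  main hJ ha hG hinv hher hθ hθi hd hK ⟨hF, hFB, hF1⟩ hΦ hT he.le
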